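import Pool.Agent.MP_bd94e8_al.H83A.Cor

/-!
The number of summands of the quotient is bounded.
-/

set_option autoImplicit false

namespace Pool.Agent.MP_bd94e8_al.H83A

open Module Function H83

namespace CntA

theorem key (C A : Type) [CommRing C] [IsArtinianRing C] [Ring A] [Algebra C A]
    [Module.Finite C A] (Y : Type) [AddCommGroup Y] [Module A Y] [Module.Finite A Y]
    [Nontrivial Y] (c : ℕ) : ∃ b : ℕ, ∀ (M : Type) [AddCommGroup M] [Module A M]
      [Module.Finite A M], Indec A M → ∀ W : Submodule A M, length A W ≤ c →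
      ∀ (σ : Type) [Fintype σ] (u : σ → (Y →ₗ[A] M ⧸ W)) (t : σ → ((M ⧸ W) →ₗ[A] Y)),
      (∀ s y, t s (u s y) = y) → (∀ s s' y, s' ≠ s → t s (u s' y) = 0) →
      Fintype.card σ ≤ b ∨ length A M = length A Y := by
  classical
  have : IsNoetherianRing A := isNoetherian_of_tower C inferInstance
  obtain ⟨n, ρ, hρ⟩ := Module.Finite.exists_fin' A Y
  obtain ⟨m, k, hk⟩ := Submodule.fg_iff_exists_fin_generating_family.1
    (IsNoetherian.noetherian (LinearMap.ker ρ))
  refine ⟨m * (c * len C A), fun M _ _ _ hM W hW σ _ u t h1 h2 => ?_⟩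
  let : Module C M := Module.compHom M (algebraMap C A)
  have : IsScalarTower C A M := IsScalarTower.of_algebraMap_smul fun _ _ => rfl
  have : Module.Finite C W := Module.Finite.trans A W
  choose p hp using fun s => projective_lifting_property W.mkQ (u s ∘ₗ ρ) W.mkQ_surjective
  have hp' : ∀ s x, W.mkQ (p s x) = u s (ρ x) := fun s x => LinearMap.congr_fun (hp s) x
  have hk' : ∀ a, ρ (k a) = 0 := fun a =>
    LinearMap.mem_ker.1 (hk ▸ Submodule.subset_span ⟨a, rfl⟩)
  let η : σ → Fin m → W := fun s a =>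
    ⟨p s (k a), (Submodule.Quotient.mk_eq_zero W).1 ((hp' s _).trans (by rw [hk', map_zero]))⟩
  obtain ⟨S, s1, s2⟩ := exists_gen (R := C) η (m * (c * len C A)) ((len_sub_le _).trans (by
    rw [length_pi_of_fintype, Finset.sum_const, Finset.card_univ, Fintype.card_fin, ← len_cast,
      nsmul_eq_mul]
    exact_mod_cast Nat.mul_le_mul_left m (len_le_mul C W hW)))
  by_cases hS : ∀ j, j ∈ S
  · exact Or.inl ((Finset.card_le_card fun j _ => hS j).trans s1)
  obtain ⟨j, hj⟩ := not_forall.1 hS
  obtain ⟨d, hd⟩ := (Submodule.mem_span_image_finset_iff_exists_fun C).1 (s2 j)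
  have h3 : LinearMap.ker ρ ≤ LinearMap.ker (p j - ∑ s : S, d s • p s) := by
    rw [← hk, Submodule.span_le]
    rintro _ ⟨a, rfl⟩
    have e := congrArg (fun f : Fin m → W => (f a : M)) hd
    simp only [Finset.sum_apply, Pi.smul_apply, Submodule.coe_sum, Submodule.coe_smul_of_tower,
      η] at e
    simp [← e]
  let g : Y →ₗ[A] M := (LinearMap.ker ρ).liftQ _ h3 ∘ₗ (ρ.quotKerEquivOfSurjective hρ).symm
  have hg : ∀ x, g (ρ x) = p j x - ∑ s : S, algebraMap C A (d s) • p s x := fun x => by
    simp [g, LinearMap.quotKerEquivOfSurjective_symm_apply]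
  have h4 : (t j ∘ₗ W.mkQ) ∘ₗ g = LinearMap.id := LinearMap.ext fun y => by
    obtain ⟨x, rfl⟩ := hρ y
    simp only [LinearMap.comp_apply, hg, map_sub, map_sum, map_smul, hp', h1, LinearMap.id_apply]
    rw [Finset.sum_eq_zero fun s _ => by rw [h2 j s _ fun e => hj (e ▸ s.2), smul_zero], sub_zero]
  exact Or.inr (LinearEquiv.ofBijective g (hM.bij h4).1).length_eq.symm

end CntA

theorem cnt : SCnt := by
  intro C A _ _ _ _ _ _ m X _ _ hX c
  classical
  have : IsNoetherianRing A := isNoetherian_of_tower C inferInstance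
  have : IsArtinianRing A := isArtinian_of_tower C inferInstance
  have := fun i => (hX i).1
  have := fun i => (hX i).2
  choose b hb using fun i => CntA.key C A (X i) c
  have hL : ∀ i, length A (X i) ≤ (∑ i, len A (X i) : ℕ) := fun i => by
    rw [← len_cast]
    exact Nat.cast_le.2 (Finset.single_le_sum (f := fun i => len A (X i))
      (fun _ _ => Nat.zero_le _) (Finset.mem_univ i))
  refine ⟨c + (∑ i, b i) * (∑ i, len A (X i)) + ∑ i, len A (X i),
    fun M _ _ _ hM W _ hW τ _ l ⟨e⟩ => ?_⟩
  have h1 : ∀ i, Fintype.card {s // l s = i} ≤ b i ∨ length A M = length A (X i) := fun i => by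
    have φ : ∀ s : {s // l s = i}, X (l s.1) ≃ₗ[A] X i := fun ⟨s, h⟩ => by
      subst h
      exact LinearEquiv.refl A _
    refine hb i M hM W hW {s // l s = i}
      (fun s => e.symm.toLinearMap ∘ₗ LinearMap.single A (fun s => X (l s)) s.1 ∘ₗ
        (φ s).symm.toLinearMap)
      (fun s => (φ s).toLinearMap ∘ₗ LinearMap.proj s.1 ∘ₗ e.toLinearMap)
      (fun s y => by simp) fun s s' y h => ?_
    simp [Pi.single_eq_of_ne (Subtype.val_injective.ne h.symm)]
  push_cast
  by_cases h2 : ∀ i, Fintype.card {s // l s = i} ≤ b i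
  · have h3 : Fintype.card τ ≤ ∑ i, b i := by
      rw [← Fintype.card_congr (Equiv.sigmaFiberEquiv l), Fintype.card_sigma]
      exact Finset.sum_le_sum fun i _ => h2 i
    rw [len_sub_quot W, e.length_eq, length_pi_of_fintype]
    refine le_add_right (add_le_add hW ((Finset.sum_le_card_nsmul _ _ _ fun s _ => hL (l s)).trans
      ?_))
    rw [nsmul_eq_mul, Finset.card_univ]
    exact_mod_cast Nat.mul_le_mul_right _ h3
  · obtain ⟨i, hi⟩ := not_forall.1 h2
    rw [(h1 i).resolve_left hi]
    exact le_add_left (by exact_mod_cast hL i)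

end Pool.Agent.MP_bd94e8_al.H83A
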